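import Mathlib

namespace Pool.Agent.Results.MP_28939e_an.Counter

open Set

/-- differentiable, μ-strongly convex, derivative L-Lipschitz -/
def InF (μ L : ℝ) (f : ℝ → ℝ) : Prop :=
  Differentiable ℝ f ∧ StrongConvexOn univ μ f ∧ ∀ x y, |deriv f x - deriv f y| ≤ L * |x - y|

/-- a K-cycle of heavy-ball, written as a K-periodic nonconstant sequence -/
def Cyc (K : ℕ) (γ β : ℝ) (f : ℝ → ℝ) (x : ℕ → ℝ) : Prop :=
  (∀ i, x (i + K) = x i) ∧ (∃ i j, x i ≠ x j) ∧
    ∀ i, x (i + 2) = x (i + 1) - γ * deriv f (x (i + 1)) + β * (x (i + 1) - x i)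

/-- the rank function -/
def rho (K j : ℕ) : ℕ := if j = 0 then 0 else if j ≤ K / 2 then 2 * j - 1 else 2 * (K - j)

/-- the pattern -/
def Pat (K : ℕ) (x : ℕ → ℝ) : Prop := ∀ i < K, ∀ j < K, rho K i < rho K j → x i ≤ x j

/-- the tuning has a one-dimensional cycle of some length but no ordered cycle of any length -/
def Bad (μ L γ β : ℝ) : Prop :=
  (∃ K f x, 3 ≤ K ∧ InF μ L f ∧ Cyc K γ β f x) ∧
    ¬ ∃ K f x, 3 ≤ K ∧ InF μ L f ∧ Cyc K γ β f x ∧ Pat K x

theorem low {μ L : ℝ} {f : ℝ → ℝ} (h : InF μ L f) {x y : ℝ} (hxy : x ≤ y) :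
    μ * (y - x) ≤ deriv f y - deriv f x ∧ deriv f y - deriv f x ≤ L * (y - x) := by
  obtain ⟨h1, h2, h3⟩ := h
  constructor
  · rw [strongConvexOn_iff_convex] at h2
    have e : (fun x : ℝ => f x - μ / 2 * ‖x‖ ^ 2) = fun x => f x - μ / 2 * x ^ 2 := by
      ext x; simp
    rw [e] at h2
    have d : ∀ x : ℝ, HasDerivAt (fun x : ℝ => f x - μ / 2 * x ^ 2) (deriv f x - μ * x) x :=
      fun x => ((h1 x).hasDerivAt.sub ((hasDerivAt_pow 2 x).const_mul (μ / 2))).congr_deriv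
        (by simp; ring)
    have := h2.monotoneOn_deriv (fun x _ => (d x).differentiableAt) (mem_univ x) (mem_univ y) hxy
    rw [(d x).deriv, (d y).deriv] at this
    linarith
  · have := h3 y x
    rw [abs_of_nonneg (sub_nonneg.2 hxy)] at this
    exact (le_abs_self _).trans this

theorem mk {μ L : ℝ} (hμ : 0 ≤ μ) {φ : ℝ → ℝ} (hc : Continuous φ)
    (h : ∀ x y, x ≤ y → μ * (y - x) ≤ φ y - φ x ∧ φ y - φ x ≤ L * (y - x)) :
    ∃ f, InF μ L f ∧ deriv f = φ := by
  have d : ∀ x, HasDerivAt (fun x => ∫ t in (0 : ℝ)..x, φ t) (φ x) x := fun x =>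
    (hc.integral_hasStrictDerivAt 0 x).hasDerivAt
  have e : deriv (fun x => ∫ t in (0 : ℝ)..x, φ t) = φ := funext fun x => (d x).deriv
  refine ⟨_, ⟨fun x => (d x).differentiableAt, ?_, fun x y => ?_⟩, e⟩
  · rw [strongConvexOn_iff_convex]
    have e2 : (fun x : ℝ => (∫ t in (0 : ℝ)..x, φ t) - μ / 2 * ‖x‖ ^ 2) =
        fun x => (∫ t in (0 : ℝ)..x, φ t) - μ / 2 * x ^ 2 := by
      ext x; simp
    rw [e2]
    have d2 : ∀ x : ℝ, HasDerivAt (fun x : ℝ => (∫ t in (0 : ℝ)..x, φ t) - μ / 2 * x ^ 2)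
        (φ x - μ * x) x :=
      fun x => ((d x).sub ((hasDerivAt_pow 2 x).const_mul (μ / 2))).congr_deriv (by simp; ring)
    refine Monotone.convexOn_univ_of_deriv (fun x => (d2 x).differentiableAt) fun x y hxy => ?_
    rw [(d2 x).deriv, (d2 y).deriv]
    linarith [(h x y hxy).1]
  · rw [e]
    rcases le_total x y with hxy | hxy
    · have := h x y hxy
      have h0 : 0 ≤ μ * (y - x) := mul_nonneg hμ (sub_nonneg.2 hxy)
      rw [abs_sub_comm, abs_sub_comm x, abs_of_nonneg (by linarith), abs_of_nonneg (by linarith)]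
      exact this.2
    · have := h y x hxy
      have h0 : 0 ≤ μ * (x - y) := mul_nonneg hμ (sub_nonneg.2 hxy)
      rw [abs_of_nonneg (by linarith), abs_of_nonneg (by linarith)]
      exact this.2

theorem noord {μ L γ : ℝ} (hγ : 0 < γ) (h3 : 3 ≤ γ * μ) :
    ¬ ∃ K f x, 3 ≤ K ∧ InF μ L f ∧ Cyc K γ (9 / 10) f x ∧ Pat K x := by
  rintro ⟨K, f, x, hK, hf, ⟨h1, ⟨i, j, hij⟩, h2⟩, hp⟩
  have q : ∀ {a b : ℝ}, a ≤ b → 3 * (b - a) ≤ γ * deriv f b - γ * deriv f a := by
    intro a b hab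
    have := mul_le_mul_of_nonneg_left (low hf hab).1 hγ.le
    nlinarith [mul_le_mul_of_nonneg_right h3 (sub_nonneg.2 hab)]
  have e0 := h2 0
  have e1 := h2 1
  have e2 := h2 2
  have f0 := h1 0
  have f1 := h1 1
  norm_num at e0 e1 e2 f0 f1
  have r0 : rho K 0 = 0 := rfl
  have r1 : rho K 1 = 1 := by
    have : 1 ≤ K / 2 := by omega
    simp [rho, this]
  have p1 : x 0 ≤ x 1 := hp 0 (by omega) 1 (by omega) (by omega)
  have p2 : x 1 ≤ x 2 := hp 1 (by omega) 2 (by omega) (by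
    rw [r1]; simp only [rho]; split_ifs <;> first | contradiction | omega)
  have z : x 2 ≤ x 0 := by
    rcases (by omega : K = 3 ∨ K = 4 ∨ 5 ≤ K) with rfl | rfl | h5
    · norm_num at f1
      rw [f0] at e1 e2
      rw [f1] at e2
      linarith [q p1, q p2]
    · have p3 : x 3 ≤ x 2 := hp 3 (by omega) 2 (by omega) (by decide)
      have p4 : x 0 ≤ x 3 := hp 0 (by omega) 3 (by omega) (by decide)
      rw [f0] at e2
      linarith [q p2, q p3]
    · have p3 : x 2 ≤ x 3 := hp 2 (by omega) 3 (by omega) (by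
        simp only [rho]; split_ifs <;> first | contradiction | omega)
      linarith [q p2]
  have a1 : x 1 = x 0 := by linarith
  have a2 : x 2 = x 0 := by linarith
  have g0 : γ * deriv f (x 0) = 0 := by rw [a1, a2] at e0; linarith
  have all : ∀ n, x n = x 0 ∧ x (n + 1) = x 0 := by
    intro n
    induction n with
    | zero => exact ⟨rfl, a1⟩
    | succ n ih => exact ⟨ih.2, by rw [h2 n, ih.1, ih.2, g0]; ring⟩
  exact hij (by rw [(all i).1, (all j).1])

noncomputable def φ (x : ℝ) : ℝ :=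
  x - 239 / 30 + 1 / 9 * min x 3 + 1 / 8 * (min (max x 3) 7 - 3) + 1 / 4 * (min (max x 7) 11 - 7)

def c (i : ℕ) : ℝ := ![0, 14, 3, 7, 11] (⟨i % 5, Nat.mod_lt _ (by norm_num)⟩ : Fin 5)

theorem result :
    (∀ μ L : ℝ, 0 < μ → μ ≤ L → ∃ γ β : ℝ, 0 < γ ∧ 0 < β ∧ β < 1 ∧ Bad μ L γ β) ∧
    ∃ μ L γ β : ℝ, 0 < μ ∧ μ < L ∧ 0 < γ ∧ 0 < β ∧ β < 1 ∧ γ * L < 2 * (1 + β) ∧
      Bad μ L γ β := by
  constructor
  · intro μ L hμ hL
    have e : 19 / 5 / μ * μ = 19 / 5 := by field_simp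
    refine ⟨19 / 5 / μ, 9 / 10, by positivity, by norm_num, by norm_num, ?_,
      noord (by positivity) (by rw [e]; norm_num)⟩
    obtain ⟨f, hf, hd⟩ := mk (μ := μ) (L := L) (φ := fun x => μ * x) hμ.le (by fun_prop) (by
      intro x y hxy
      constructor <;> nlinarith [mul_le_mul_of_nonneg_right hL (sub_nonneg.2 hxy)])
    refine ⟨4, f, fun i => (-1) ^ i, by norm_num, hf, fun i => by ring, ⟨0, 1, by norm_num⟩,
      fun i => ?_⟩
    rw [hd]
    simp only
    rw [← mul_assoc, e]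
    ring
  · refine ⟨1, 5 / 4, 3, 9 / 10, by norm_num, by norm_num, by norm_num,
      by norm_num, by norm_num, by norm_num, ?_, noord (by norm_num) (by norm_num)⟩
    obtain ⟨f, hf, hd⟩ := mk (μ := 1) (L := 5 / 4) (φ := φ) zero_le_one
      (by unfold φ; fun_prop) (by
        intro x y hxy
        simp only [φ, min_def, max_def]
        split_ifs <;> constructor <;> linarith)
    refine ⟨5, f, c, by norm_num, hf, fun i => by simp [c], ⟨0, 1, by simp [c]⟩, fun i => ?_⟩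
    rw [hd]
    have : ∀ a b, c (5 * a + b) = c b := fun a b => by simp [c]
    rw [← Nat.div_add_mod i 5, add_assoc, add_assoc, this, this, this]
    have h5 : i % 5 < 5 := Nat.mod_lt _ (by norm_num)
    generalize i % 5 = r at h5
    interval_cases r <;> norm_num [c, φ, min_def, max_def]

end Pool.Agent.Results.MP_28939e_an.Counter
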